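import Pool.Agent.H.MP_ad013a_pr.h63.Sound
import Pool.Agent.H.MP_ad013a_pr.h63.Symm
import Pool.Agent.H.MP_ad013a_pr.h63.Flat
import Pool.Agent.H.MP_ad013a_pr.h63w.Top
import Pool.Agent.H.MP_ad013a_pr.h63r.Q1.F
import Pool.Agent.H.MP_ad013a_pr.h63r.Q2.F
import Pool.Agent.H.MP_ad013a_pr.h63r.Q3.F
import Pool.Agent.H.MP_ad013a_pr.h63r.Q4.F
import Pool.Agent.H.MP_ad013a_pr.h63r.Q5.F
import Pool.Agent.H.MP_ad013a_pr.h63r.Q6.F
import Pool.Agent.H.MP_ad013a_pr.h63r.Q7.F
import Pool.Agent.H.MP_ad013a_pr.h63r.Q8.F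
import Pool.Agent.H.MP_ad013a_pr.h63r.Q9.F
import Pool.Agent.H.MP_ad013a_pr.h63r.Q10.F
import Pool.Agent.H.MP_ad013a_pr.h63r.Q11.F
import Pool.Agent.H.MP_ad013a_pr.h63r.Q12.F

/-!
# The constant for biased letters exceeds the constant for fair letters
-/

namespace Pool.Agent.ad013a

open Filter Topology

theorem seg1 {p C : ℝ} (h0 : 6750 / 10000 ≤ p) (h1 : p ≤ 6764 / 10000)
    (hC : Tendsto (fun n : ℕ => EL p n / n) atTop (𝓝 C)) : 0.8204 ≤ C := by
  have hh : ∀ i, chkE false 10000 131072 53771 6750 6764 R1.g (R1.g i) = true := by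
    intro i
    rw [← chkF_eq]
    exact R1.all_ok i
  have := lim_ge_of_chk (by norm_num) (by norm_num) (by norm_num) (by norm_num) (by norm_num)
    hh R1.start_ok (p := p) (by exact_mod_cast h0) (by exact_mod_cast h1)
    (by simp) hC
  norm_num at this
  linarith

theorem seg2 {p C : ℝ} (h0 : 6764 / 10000 ≤ p) (h1 : p ≤ 6781 / 10000)
    (hC : Tendsto (fun n : ℕ => EL p n / n) atTop (𝓝 C)) : 0.8204 ≤ C := by
  have hh : ∀ i, chkE false 10000 131072 53770 6764 6781 R2.g (R2.g i) = true := by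
    intro i
    rw [← chkF_eq]
    exact R2.all_ok i
  have := lim_ge_of_chk (by norm_num) (by norm_num) (by norm_num) (by norm_num) (by norm_num)
    hh R2.start_ok (p := p) (by exact_mod_cast h0) (by exact_mod_cast h1)
    (by simp) hC
  norm_num at this
  linarith

theorem seg3 {p C : ℝ} (h0 : 6781 / 10000 ≤ p) (h1 : p ≤ 6802 / 10000)
    (hC : Tendsto (fun n : ℕ => EL p n / n) atTop (𝓝 C)) : 0.8204 ≤ C := by
  have hh : ∀ i, chkE false 10000 131072 53768 6781 6802 R3.g (R3.g i) = true := by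
    intro i
    rw [← chkF_eq]
    exact R3.all_ok i
  have := lim_ge_of_chk (by norm_num) (by norm_num) (by norm_num) (by norm_num) (by norm_num)
    hh R3.start_ok (p := p) (by exact_mod_cast h0) (by exact_mod_cast h1)
    (by simp) hC
  norm_num at this
  linarith

theorem seg4 {p C : ℝ} (h0 : 6802 / 10000 ≤ p) (h1 : p ≤ 6826 / 10000)
    (hC : Tendsto (fun n : ℕ => EL p n / n) atTop (𝓝 C)) : 0.8204 ≤ C := by
  have hh : ∀ i, chkE false 10000 131072 53771 6802 6826 R4.g (R4.g i) = true := by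
    intro i
    rw [← chkF_eq]
    exact R4.all_ok i
  have := lim_ge_of_chk (by norm_num) (by norm_num) (by norm_num) (by norm_num) (by norm_num)
    hh R4.start_ok (p := p) (by exact_mod_cast h0) (by exact_mod_cast h1)
    (by simp) hC
  norm_num at this
  linarith

theorem seg5 {p C : ℝ} (h0 : 6826 / 10000 ≤ p) (h1 : p ≤ 6854 / 10000)
    (hC : Tendsto (fun n : ℕ => EL p n / n) atTop (𝓝 C)) : 0.8204 ≤ C := by
  have hh : ∀ i, chkE false 10000 131072 53767 6826 6854 R5.g (R5.g i) = true := by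
    intro i
    rw [← chkF_eq]
    exact R5.all_ok i
  have := lim_ge_of_chk (by norm_num) (by norm_num) (by norm_num) (by norm_num) (by norm_num)
    hh R5.start_ok (p := p) (by exact_mod_cast h0) (by exact_mod_cast h1)
    (by simp) hC
  norm_num at this
  linarith

theorem seg6 {p C : ℝ} (h0 : 6854 / 10000 ≤ p) (h1 : p ≤ 6890 / 10000)
    (hC : Tendsto (fun n : ℕ => EL p n / n) atTop (𝓝 C)) : 0.8204 ≤ C := by
  have hh : ∀ i, chkE false 10000 131072 53772 6854 6890 R6.g (R6.g i) = true := by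
    intro i
    rw [← chkF_eq]
    exact R6.all_ok i
  have := lim_ge_of_chk (by norm_num) (by norm_num) (by norm_num) (by norm_num) (by norm_num)
    hh R6.start_ok (p := p) (by exact_mod_cast h0) (by exact_mod_cast h1)
    (by simp) hC
  norm_num at this
  linarith

theorem seg7 {p C : ℝ} (h0 : 6890 / 10000 ≤ p) (h1 : p ≤ 6940 / 10000)
    (hC : Tendsto (fun n : ℕ => EL p n / n) atTop (𝓝 C)) : 0.8204 ≤ C := by
  have hh : ∀ i, chkE false 10000 131072 53769 6890 6940 R7.g (R7.g i) = true := by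
    intro i
    rw [← chkF_eq]
    exact R7.all_ok i
  have := lim_ge_of_chk (by norm_num) (by norm_num) (by norm_num) (by norm_num) (by norm_num)
    hh R7.start_ok (p := p) (by exact_mod_cast h0) (by exact_mod_cast h1)
    (by simp) hC
  norm_num at this
  linarith

theorem seg8 {p C : ℝ} (h0 : 6940 / 10000 ≤ p) (h1 : p ≤ 7010 / 10000)
    (hC : Tendsto (fun n : ℕ => EL p n / n) atTop (𝓝 C)) : 0.8204 ≤ C := by
  have hh : ∀ i, chkE false 10000 131072 53774 6940 7010 R8.g (R8.g i) = true := by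
    intro i
    rw [← chkF_eq]
    exact R8.all_ok i
  have := lim_ge_of_chk (by norm_num) (by norm_num) (by norm_num) (by norm_num) (by norm_num)
    hh R8.start_ok (p := p) (by exact_mod_cast h0) (by exact_mod_cast h1)
    (by simp) hC
  norm_num at this
  linarith

theorem seg9 {p C : ℝ} (h0 : 7010 / 10000 ≤ p) (h1 : p ≤ 7120 / 10000)
    (hC : Tendsto (fun n : ℕ => EL p n / n) atTop (𝓝 C)) : 0.8204 ≤ C := by
  have hh : ∀ i, chkE false 10000 131072 53781 7010 7120 R9.g (R9.g i) = true := by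
    intro i
    rw [← chkF_eq]
    exact R9.all_ok i
  have := lim_ge_of_chk (by norm_num) (by norm_num) (by norm_num) (by norm_num) (by norm_num)
    hh R9.start_ok (p := p) (by exact_mod_cast h0) (by exact_mod_cast h1)
    (by simp) hC
  norm_num at this
  linarith

theorem seg10 {p C : ℝ} (h0 : 7120 / 10000 ≤ p) (h1 : p ≤ 7350 / 10000)
    (hC : Tendsto (fun n : ℕ => EL p n / n) atTop (𝓝 C)) : 0.8204 ≤ C := by
  have hh : ∀ i, chkE false 10000 131072 53791 7120 7350 R10.g (R10.g i) = true := by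
    intro i
    rw [← chkF_eq]
    exact R10.all_ok i
  have := lim_ge_of_chk (by norm_num) (by norm_num) (by norm_num) (by norm_num) (by norm_num)
    hh R10.start_ok (p := p) (by exact_mod_cast h0) (by exact_mod_cast h1)
    (by simp) hC
  norm_num at this
  linarith

theorem seg11 {p C : ℝ} (h0 : 7350 / 10000 ≤ p) (h1 : p ≤ 7700 / 10000)
    (hC : Tendsto (fun n : ℕ => EL p n / n) atTop (𝓝 C)) : 0.8204 ≤ C := by
  have hh : ∀ i, chkE false 10000 131072 54138 7350 7700 R11.g (R11.g i) = true := by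
    intro i
    rw [← chkF_eq]
    exact R11.all_ok i
  have := lim_ge_of_chk (by norm_num) (by norm_num) (by norm_num) (by norm_num) (by norm_num)
    hh R11.start_ok (p := p) (by exact_mod_cast h0) (by exact_mod_cast h1)
    (by simp) hC
  norm_num at this
  linarith

theorem seg12 {p C : ℝ} (h0 : 7700 / 10000 ≤ p) (h1 : p ≤ 10000 / 10000)
    (hC : Tendsto (fun n : ℕ => EL p n / n) atTop (𝓝 C)) : 0.8204 ≤ C := by
  have hh : ∀ i, chkE false 10000 131072 54272 7700 10000 R12.g (R12.g i) = true := by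
    intro i
    rw [← chkF_eq]
    exact R12.all_ok i
  have := lim_ge_of_chk (by norm_num) (by norm_num) (by norm_num) (by norm_num) (by norm_num)
    hh R12.start_ok (p := p) (by exact_mod_cast h0) (by exact_mod_cast h1)
    (by simp) hC
  norm_num at this
  linarith

theorem biased_ge {p C : ℝ} (h0 : 27 / 40 ≤ p) (h1 : p ≤ 1)
    (hC : Tendsto (fun n : ℕ => EL p n / n) atTop (𝓝 C)) : 0.8204 ≤ C := by
  rcases le_total p (6764 / 10000) with h | h
  · exact seg1 (by linarith) h hC
  have h0 := h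
  clear h
  rcases le_total p (6781 / 10000) with h | h
  · exact seg2 (by linarith) h hC
  have h0 := h
  clear h
  rcases le_total p (6802 / 10000) with h | h
  · exact seg3 (by linarith) h hC
  have h0 := h
  clear h
  rcases le_total p (6826 / 10000) with h | h
  · exact seg4 (by linarith) h hC
  have h0 := h
  clear h
  rcases le_total p (6854 / 10000) with h | h
  · exact seg5 (by linarith) h hC
  have h0 := h
  clear h
  rcases le_total p (6890 / 10000) with h | h
  · exact seg6 (by linarith) h hC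
  have h0 := h
  clear h
  rcases le_total p (6940 / 10000) with h | h
  · exact seg7 (by linarith) h hC
  have h0 := h
  clear h
  rcases le_total p (7010 / 10000) with h | h
  · exact seg8 (by linarith) h hC
  have h0 := h
  clear h
  rcases le_total p (7120 / 10000) with h | h
  · exact seg9 (by linarith) h hC
  have h0 := h
  clear h
  rcases le_total p (7350 / 10000) with h | h
  · exact seg10 (by linarith) h hC
  have h0 := h
  clear h
  rcases le_total p (7700 / 10000) with h | h
  · exact seg11 (by linarith) h hC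
  exact seg12 h (by linarith) hC

theorem fair_lt : ∃ C : ℝ, Tendsto (fun n : ℕ => EL (1 / 2) n / n) atTop (𝓝 C) ∧
    ∀ p : ℝ, 0 ≤ p → p ≤ 1 → 7 / 40 ≤ |p - 1 / 2| →
      ∃ D : ℝ, Tendsto (fun n : ℕ => EL p n / n) atTop (𝓝 D) ∧ C < D := by
  obtain ⟨C, hC, hC'⟩ := upperW
  refine ⟨C, hC, ?_⟩
  intro p h0 h1 h
  obtain ⟨D, hD⟩ := exists_lim h0 h1
  refine ⟨D, hD, lt_of_lt_of_le hC' ?_⟩
  rcases le_abs.1 h with h' | h'
  · exact biased_ge (by linarith) h1 hD
  · have hD' : Tendsto (fun n : ℕ => EL (1 - p) n / n) atTop (𝓝 D) := by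
      simpa only [EL_symm] using hD
    exact biased_ge (p := 1 - p) (by linarith) (by linarith) hD'

end Pool.Agent.ad013a
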